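import Pool.Agent.ArcGrid.Final

/-!
# Arc chromatic number of the `n × n` grid: upper bound with constant below one
-/

set_option autoImplicit false

namespace Pool.Agent.Results.MP_142ab8_co.UpperBelowOne

/-- the grid `G_n = [n] × [n]`, `[n] = {1, …, n}` -/
def grid (n : ℕ) : Set (ℕ × ℕ) := {P | (1 ≤ P.1 ∧ P.1 ≤ n) ∧ (1 ≤ P.2 ∧ P.2 ≤ n)}

/-- a grid point as a point of the Euclidean plane -/
noncomputable def pt (P : ℕ × ℕ) : EuclideanSpace ℝ (Fin 2) := !₂[(P.1 : ℝ), (P.2 : ℝ)]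

/-- an arc: a set of grid points without three distinct collinear points -/
def IsArc (A : Set (ℕ × ℕ)) : Prop :=
  ∀ P ∈ A, ∀ Q ∈ A, ∀ R ∈ A, P ≠ Q → P ≠ R → Q ≠ R → ¬ Collinear ℝ {pt P, pt Q, pt R}

/-- `c` is an arc-proper `k`-colouring of `G_n`: every colour class is an arc -/
def ArcProper (n k : ℕ) (c : grid n → Fin k) : Prop :=
  ∀ j : Fin k, IsArc {P | ∃ h : P ∈ grid n, c ⟨P, h⟩ = j}

/-- the arc chromatic number of `G_n`: the least `k` for which an arc-proper `k`-colouring exists -/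
noncomputable def arcChromaticNumber (n : ℕ) : ℕ :=
  sInf {k : ℕ | ∃ c : grid n → Fin k, ArcProper n k c}

open Pool.Agent.ArcGrid in
lemma col_of_collinear (P Q R : ℕ × ℕ) (h : Collinear ℝ {pt P, pt Q, pt R}) :
    Col ((P.1 : ℤ), (P.2 : ℤ)) ((Q.1 : ℤ), (Q.2 : ℤ)) ((R.1 : ℤ), (R.2 : ℤ)) := by
  rw [collinear_iff_of_mem (p₀ := pt P) (by simp)] at h
  obtain ⟨v, hv⟩ := h
  obtain ⟨r, hr⟩ := hv (pt Q) (by simp)
  obtain ⟨s, hs⟩ := hv (pt R) (by simp)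
  have q1 : (Q.1 : ℝ) = r * v 0 + P.1 := by
    have := congrArg (fun z : EuclideanSpace ℝ (Fin 2) => z 0) hr
    simpa [pt] using this
  have q2 : (Q.2 : ℝ) = r * v 1 + P.2 := by
    have := congrArg (fun z : EuclideanSpace ℝ (Fin 2) => z 1) hr
    simpa [pt] using this
  have r1 : (R.1 : ℝ) = s * v 0 + P.1 := by
    have := congrArg (fun z : EuclideanSpace ℝ (Fin 2) => z 0) hs
    simpa [pt] using this
  have r2 : (R.2 : ℝ) = s * v 1 + P.2 := by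
    have := congrArg (fun z : EuclideanSpace ℝ (Fin 2) => z 1) hs
    simpa [pt] using this
  unfold Col
  simp only
  have e : (((Q.1 : ℤ) - P.1) * ((R.2 : ℤ) - P.2) : ℝ) = ((R.1 : ℤ) - P.1) * ((Q.2 : ℤ) - P.2) := by
    push_cast
    rw [q1, q2, r1, r2]
    ring
  exact_mod_cast e

/-- **For every `ε > 0` the arc chromatic number of the `n × n` grid is at most `(64/65 + ε) n` for
all large `n`.** -/
theorem result (ε : ℝ) (hε : 0 < ε) : ∃ n₀ : ℕ, ∀ n : ℕ, n₀ ≤ n →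
    (arcChromaticNumber n : ℝ) ≤ (64 / 65 + ε) * n := by
  classical
  obtain ⟨n0, h⟩ := Pool.Agent.ArcGrid.box_cov ε hε
  refine ⟨n0, fun n hn => ?_⟩
  obtain ⟨k, hk, A, hA, hcov⟩ := h n hn
  have hex : ∀ P : grid n, ∃ i, i < k ∧ (((P : ℕ × ℕ).1 : ℤ), ((P : ℕ × ℕ).2 : ℤ)) ∈ A i := by
    rintro ⟨P, ⟨h1, h2⟩, h3, h4⟩
    apply hcov
    rw [Pool.Agent.ArcGrid.mem_box]
    simp only
    omega
  choose f hf1 hf2 using hex
  have hc : ArcProper n k (fun P => ⟨f P, hf1 P⟩) := by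
    intro j P hP Q hQ R hR hPQ hPR hQR hcol
    obtain ⟨hP, hPj⟩ := hP
    obtain ⟨hQ, hQj⟩ := hQ
    obtain ⟨hR, hRj⟩ := hR
    have m1 := hf2 ⟨P, hP⟩
    have m2 := hf2 ⟨Q, hQ⟩
    have m3 := hf2 ⟨R, hR⟩
    have e1 : f ⟨P, hP⟩ = j := congrArg Fin.val hPj
    have e2 : f ⟨Q, hQ⟩ = j := congrArg Fin.val hQj
    have e3 : f ⟨R, hR⟩ = j := congrArg Fin.val hRj
    rw [e1] at m1
    rw [e2] at m2
    rw [e3] at m3
    have inj : ∀ U V : ℕ × ℕ, U ≠ V → ((U.1 : ℤ), (U.2 : ℤ)) ≠ ((V.1 : ℤ), (V.2 : ℤ)) := by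
      intro U V hUV he
      apply hUV
      simp only [Prod.mk.injEq, Nat.cast_inj] at he
      exact Prod.ext he.1 he.2
    exact hA j _ m1 _ m2 _ m3 (inj _ _ hPQ) (inj _ _ hPR) (inj _ _ hQR) (col_of_collinear P Q R hcol)
  have hle : arcChromaticNumber n ≤ k := Nat.sInf_le ⟨_, hc⟩
  exact (Nat.cast_le.2 hle).trans hk

end Pool.Agent.Results.MP_142ab8_co.UpperBelowOne
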